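import Mathlib
import Pool.Agent.H383.FullC
import Pool.Agent.W24.MulOrth2
import Pool.Agent.H425R3.JL.F3

/-!
# The negative bias of the error term of the Gauss circle problem at integer radii

Five sixths of all disks of integer radius contain fewer integer points than their area: the set of these
radii has a density `d` with `5 / 6 ≤ d < 1`, even in short intervals, the same `d` for prime radii, for the
radii in any residue class, and independently of the multiplicative structure of the radius.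
-/

set_option autoImplicit false

open Filter Topology MeasureTheory

namespace Pool.Agent.Results.MP_fb29e9_nt.NegativeBias

/-- `F(R)`: the number of integer points in the closed disk of radius `R` centred at the origin -/
noncomputable def F (R : ℝ) : ℕ := Nat.card {p : ℤ × ℤ // (p.1 : ℝ) ^ 2 + (p.2 : ℝ) ^ 2 ≤ R ^ 2}

lemma A_meas : MeasurableSet {x : Fin 1 → ℝ | x 0 < 0} :=
  measurableSet_lt (measurable_pi_apply 0) measurable_const

lemma frontier_null (μ : Measure (Fin 1 → ℝ)) (g : ℝ → ENNReal)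
    (h : μ.map (fun x => x 0) = volume.withDensity g) :
    μ (frontier {x : Fin 1 → ℝ | x 0 < 0}) = 0 := by
  have h1 : frontier {x : Fin 1 → ℝ | x 0 < 0} ⊆ {x : Fin 1 → ℝ | x 0 = 0} :=
    frontier_lt_subset_eq (continuous_apply 0) continuous_const
  refine measure_mono_null h1 ?_
  have h2 : μ.map (fun x => x 0) {(0 : ℝ)} = 0 := by
    rw [h]
    exact withDensity_absolutelyContinuous _ _ (by simp)
  rwa [Measure.map_apply (measurable_pi_apply 0) (measurableSet_singleton _)] at h2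

/-- `N² - π N²` and its normalisation have the same sign -/
lemma sign_iff {n : ℕ} (hn : 1 ≤ n) :
    Pool.Agent.H425R3.JL.Ec (((1 : ℕ) : ℝ) * (n : ℝ) ^ 2 + 0 * n + 0) < 0 ↔
      (F n : ℝ) < Real.pi * (n : ℝ) ^ 2 := by
  have hn0 : (0 : ℝ) < n := by exact_mod_cast hn
  unfold Pool.Agent.H425R3.JL.Ec F
  have e : ((1 : ℕ) : ℝ) * (n : ℝ) ^ 2 + 0 * n + 0 = (n : ℝ) ^ 2 := by push_cast; ring
  rw [e]
  have hs : (0 : ℝ) < ((n : ℝ) ^ 2) ^ (1 / 4 : ℝ) := by positivity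
  rw [div_lt_iff₀ hs, zero_mul, sub_neg]

lemma Cx_iff (n : ℕ) : Pool.Agent.H383.Circ.Cx ((n : ℝ) ^ 2) < 0 ↔
    (F n : ℝ) < Real.pi * (n : ℝ) ^ 2 := by
  unfold Pool.Agent.H383.Circ.Cx F
  rw [sub_neg]

open Classical in
/-- Let `F(n)` be the number of integer points in the closed disk of radius `n`. There is a number `d` with
`5 / 6 ≤ d < 1` such that:
(1) for all `ε > 0`, the proportion of the `n` with `F(n) < π n²` in the interval `(k, k + N]` tends to `d`
as `N → ∞`, uniformly for `k^(1/2 + ε) ≤ N`;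
(2) the proportion of the primes `p ≤ N` with `F(p) < π p²` tends to the same `d`;
(3) `∑_{n ≤ N} g(n) (1[F(n) < π n²] - d) = o(N)` uniformly over all multiplicative `g` with `|g| ≤ 1`;
(4) the same for every family of weights `|w_N(n)| ≤ 1` which is asymptotically uncorrelated with every
irrational rotation (for instance the indicator function of a residue class). -/
theorem result : ∃ d : ℝ, 5 / 6 ≤ d ∧ d < 1 ∧
    (∀ ε : ℝ, 0 < ε → ∀ η : ℝ, 0 < η → ∃ N₀ : ℕ, ∀ N : ℕ, N₀ ≤ N → ∀ k : ℕ, (k : ℝ) ^ (1 / 2 + ε) ≤ N →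
      |(((Finset.Ioc k (k + N)).filter (fun n : ℕ => (F n : ℝ) < Real.pi * (n : ℝ) ^ 2)).card : ℝ) / N
        - d| ≤ η) ∧
    Tendsto (fun N : ℕ => (((Finset.Icc 1 N).filter (fun p : ℕ => p.Prime ∧
        (F p : ℝ) < Real.pi * (p : ℝ) ^ 2)).card : ℝ) / ((Finset.Icc 1 N).filter Nat.Prime).card)
      atTop (𝓝 d) ∧
    (∀ ε : ℝ, 0 < ε → ∃ N₀ : ℕ, ∀ N : ℕ, N₀ ≤ N → ∀ g : ℕ → ℂ, (∀ n, ‖g n‖ ≤ 1) →
      (∀ m n : ℕ, Nat.Coprime m n → g (m * n) = g m * g n) →
      ‖∑ n ∈ Finset.Icc 1 N, g n *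
        (((if (F n : ℝ) < Real.pi * (n : ℝ) ^ 2 then 1 else 0) - d : ℝ) : ℂ)‖ ≤ ε * N) ∧
    (∀ w : ℕ → ℕ → ℂ, (∀ N n, ‖w N n‖ ≤ 1) →
      (∀ θ : ℝ, Irrational θ → Tendsto (fun N : ℕ =>
        (∑ n ∈ Finset.Icc 1 N, w N n * Complex.exp (2 * Real.pi * θ * n * Complex.I)) / N)
        atTop (𝓝 0)) →
      Tendsto (fun N : ℕ => (∑ n ∈ Finset.Icc 1 N, w N n *
        (((if (F n : ℝ) < Real.pi * (n : ℝ) ^ 2 then 1 else 0) - d : ℝ) : ℂ)) / N) atTop (𝓝 0)) := by
  obtain ⟨d, hd1, hd2, hwin⟩ := Pool.Agent.H383.Circ.radii2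
  simp only [Cx_iff] at hwin
  -- the density along all `n ≤ N`
  have hall : Tendsto (fun N : ℕ => (((Finset.Icc 1 N).filter (fun n : ℕ =>
      (F n : ℝ) < Real.pi * (n : ℝ) ^ 2)).card : ℝ) / N) atTop (𝓝 d) := by
    rw [Metric.tendsto_atTop]
    intro η hη
    obtain ⟨N0, h⟩ := hwin 1 one_pos (η / 2) (half_pos hη)
    refine ⟨N0, fun N hN => ?_⟩
    have h1 := h N hN 0 (by
      have : ((0 : ℕ) : ℝ) ^ ((1 / 2 : ℝ) + 1) = 0 := by
        rw [Nat.cast_zero, Real.zero_rpow (by norm_num)]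
      rw [this]
      positivity)
    have e : Finset.Ioc 0 (0 + N) = Finset.Icc 1 N := by
      ext x; simp only [Finset.mem_Ioc, Finset.mem_Icc]; omega
    rw [e] at h1
    rw [Real.dist_eq]
    linarith
  have ha : ∀ i : Fin 1, 0 < (fun _ : Fin 1 => 1) i := fun _ => one_pos
  have hP : ∀ i : Fin 1, ∀ n : ℕ, 1 ≤ n →
      0 < (((fun _ : Fin 1 => 1) i : ℕ) : ℝ) * (n : ℝ) ^ 2 + (fun _ : Fin 1 => (0 : ℝ)) i * n +
        (fun _ : Fin 1 => (0 : ℝ)) i := by
    intro i n hn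
    have hn0 : (0 : ℝ) < n := by exact_mod_cast hn
    simp only [Nat.cast_one, one_mul, zero_mul, add_zero]
    positivity
  set A : Set (Fin 1 → ℝ) := {x | x 0 < 0} with hA
  have hAm : MeasurableSet A := A_meas
  refine ⟨d, hd1, hd2, hwin, ?_, ?_⟩
  · obtain ⟨μ, -, hden, -, hset⟩ := Pool.Agent.H425R3.JL.final_gen Pool.Agent.H425R3.JL.circ_data
      (fun _ : Fin 1 => 1) (fun _ => 0) (fun _ => 0) ha hP
    obtain ⟨g, -, -, hg, -⟩ := hden 0
    obtain ⟨h1, h2⟩ := hset A (frontier_null _ _ hg)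
    have e1 : ∀ N : ℕ, ((Finset.Icc 1 N).filter (fun n : ℕ => (fun i : Fin 1 =>
        Pool.Agent.H425R3.JL.Ec ((((fun _ : Fin 1 => 1) i : ℕ) : ℝ) * (n : ℝ) ^ 2 +
          (fun _ : Fin 1 => (0 : ℝ)) i * n + (fun _ : Fin 1 => (0 : ℝ)) i)) ∈ A)) =
        ((Finset.Icc 1 N).filter (fun n : ℕ => (F n : ℝ) < Real.pi * (n : ℝ) ^ 2)) := by
      intro N
      apply Finset.filter_congr
      intro n hn
      exact sign_iff (Finset.mem_Icc.1 hn).1
    have e2 : ∀ N : ℕ, ((Finset.Icc 1 N).filter (fun p : ℕ => p.Prime ∧ (fun i : Fin 1 =>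
        Pool.Agent.H425R3.JL.Ec ((((fun _ : Fin 1 => 1) i : ℕ) : ℝ) * (p : ℝ) ^ 2 +
          (fun _ : Fin 1 => (0 : ℝ)) i * p + (fun _ : Fin 1 => (0 : ℝ)) i)) ∈ A)) =
        ((Finset.Icc 1 N).filter (fun p : ℕ => p.Prime ∧ (F p : ℝ) < Real.pi * (p : ℝ) ^ 2)) := by
      intro N
      apply Finset.filter_congr
      intro n hn
      exact and_congr Iff.rfl (sign_iff (Finset.mem_Icc.1 hn).1)
    have h3 : Tendsto (fun N : ℕ => (((Finset.Icc 1 N).filter (fun n : ℕ =>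
        (F n : ℝ) < Real.pi * (n : ℝ) ^ 2)).card : ℝ) / N) atTop
        (𝓝 ((μ : Measure (Fin 1 → ℝ)).real A)) := by
      refine h1.congr fun N => ?_
      rw [e1]
    have h4 : (μ : Measure (Fin 1 → ℝ)).real A = d := tendsto_nhds_unique h3 hall
    rw [h4] at h2
    refine h2.congr fun N => ?_
    rw [e2]
  · obtain ⟨μ, -, hden, hset⟩ := Pool.Agent.W24.MulOrth.mo_gen Pool.Agent.H425R3.JL.circ_data
      (fun _ : Fin 1 => 1) (fun _ => 0) (fun _ => 0) ha hP
    obtain ⟨g, -, -, hg, -⟩ := hden 0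
    obtain ⟨h1, h2⟩ := hset (A.indicator 1) (Or.inr ⟨A, frontier_null _ _ hg, rfl⟩)
    rw [integral_indicator_one hAm] at h1 h2
    have ev : ∀ n : ℕ, 1 ≤ n → A.indicator (1 : (Fin 1 → ℝ) → ℝ) (fun i : Fin 1 =>
        Pool.Agent.H425R3.JL.Ec ((((fun _ : Fin 1 => 1) i : ℕ) : ℝ) * (n : ℝ) ^ 2 +
          (fun _ : Fin 1 => (0 : ℝ)) i * n + (fun _ : Fin 1 => (0 : ℝ)) i)) =
        if (F n : ℝ) < Real.pi * (n : ℝ) ^ 2 then 1 else 0 := by
      intro n hn
      by_cases h : (F n : ℝ) < Real.pi * (n : ℝ) ^ 2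
      · rw [if_pos h, Set.indicator_of_mem]
        · rfl
        · exact (sign_iff hn).2 h
      · rw [if_neg h, Set.indicator_of_notMem]
        exact fun h' => h ((sign_iff hn).1 h')
    have hsum : ∀ (N : ℕ) (g : ℕ → ℂ) (m : ℝ), ∑ n ∈ Finset.Icc 1 N, g n *
          ((A.indicator (1 : (Fin 1 → ℝ) → ℝ) (fun i : Fin 1 =>
        Pool.Agent.H425R3.JL.Ec ((((fun _ : Fin 1 => 1) i : ℕ) : ℝ) * (n : ℝ) ^ 2 +
          (fun _ : Fin 1 => (0 : ℝ)) i * n + (fun _ : Fin 1 => (0 : ℝ)) i)) - m : ℝ) : ℂ) =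
        ∑ n ∈ Finset.Icc 1 N, g n *
          (((if (F n : ℝ) < Real.pi * (n : ℝ) ^ 2 then 1 else 0) - m : ℝ) : ℂ) := by
      intro N g m
      refine Finset.sum_congr rfl fun n hn => ?_
      rw [ev n (Finset.mem_Icc.1 hn).1]
    simp only [hsum] at h1 h2
    -- the mean is `d`
    have hm : (μ : Measure (Fin 1 → ℝ)).real A = d := by
      refine tendsto_nhds_unique ?_ hall
      rw [Metric.tendsto_atTop]
      intro ε hε
      obtain ⟨N0, h⟩ := h1 (ε / 2) (half_pos hε)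
      refine ⟨max N0 1, fun N hN => ?_⟩
      have h5 := h N (le_trans (le_max_left _ _) hN) (fun _ => 1) (fun _ => by simp) (fun _ _ => by simp)
      have hN1 : 1 ≤ N := le_trans (le_max_right _ _) hN
      have hN0 : (0 : ℝ) < N := by exact_mod_cast hN1
      have e : ∑ n ∈ Finset.Icc 1 N, (1 : ℂ) *
          (((if (F n : ℝ) < Real.pi * (n : ℝ) ^ 2 then 1 else 0) -
            (μ : Measure (Fin 1 → ℝ)).real A : ℝ) : ℂ) =
          ((((((Finset.Icc 1 N).filter (fun n : ℕ =>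
            (F n : ℝ) < Real.pi * (n : ℝ) ^ 2)).card : ℝ) -
            N * (μ : Measure (Fin 1 → ℝ)).real A) : ℝ) : ℂ) := by
        simp only [one_mul]
        rw [← Complex.ofReal_sum, Finset.sum_sub_distrib, Finset.sum_boole]
        simp
      rw [e, Complex.norm_real, Real.norm_eq_abs] at h5
      rw [Real.dist_eq]
      have e6 : (((Finset.Icc 1 N).filter (fun n : ℕ =>
            (F n : ℝ) < Real.pi * (n : ℝ) ^ 2)).card : ℝ) / N - (μ : Measure (Fin 1 → ℝ)).real A =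
          ((((Finset.Icc 1 N).filter (fun n : ℕ =>
            (F n : ℝ) < Real.pi * (n : ℝ) ^ 2)).card : ℝ) -
            N * (μ : Measure (Fin 1 → ℝ)).real A) / N := by
        field_simp
      rw [e6, abs_div, abs_of_pos hN0, div_lt_iff₀ hN0]
      have : ε / 2 * N < ε * N := by nlinarith
      linarith
    rw [hm] at h1 h2
    exact ⟨h1, h2⟩

end Pool.Agent.Results.MP_fb29e9_nt.NegativeBias
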