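import Pool.Agent.W24.CP.SR
import Pool.Agent.V11109.CIR.Law
import Pool.Agent.V11109.CIR.Cmp

/-!
# The limit law of the error term of the Gauss circle problem along `x = α n ^ c`

Let `E(x) = (#{p ∈ ℤ² : |p|² ≤ x} - π x) / x^{1/4}` be the normalised error term of the Gauss circle
problem, `x` being the squared radius.  Let `ν` be the limit law of `E`; it has a density which extends to
an entire function, and full support.

For every real `c > 1` there is a set `A` of real numbers of Hausdorff dimension smaller than one such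
that for all `α > 0` outside `A` the numbers `E(α n ^ c)`, `n = 1, 2, …`, have the limit law `ν`: this
is the distribution of the error term for the circles of the radii `β n ^ γ` with `γ = c / 2 > 1/2`
and `β = √α`.  More generally for all positive integers `a_1, …, a_k` and integers
`b_1, …, b_k ≥ 0` the vectors `(E(a_1 m + b_1), …, E(a_k m + b_k))`, for `m = ⌊α n ^ c⌋`, have the same
limit law as for `m = 1, 2, 3, …`.

The proof combines the theorem on linear arguments (`Pool.Agent.W24.CP.SR.circ_lin`, the starting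
result `LinearArguments`) with the metric theorem on sequences `⌊α n ^ c⌋` of `Pool.Agent.Y854.GM`.
-/

set_option autoImplicit false

open Filter Topology MeasureTheory

namespace Pool.Agent.Results.MP_fb29e9_nt.RealPowerRadii

open Pool.Agent.V11109.CIR

open Classical in
/-- The vectors `v n`, `n = 1, 2, 3, …`, have the limit law `μ`, a measure on `ℝ ^ k`: the joint
distribution functions converge everywhere. -/
def HasLaw {k : ℕ} (v : ℕ → Fin k → ℝ) (μ : Measure (Fin k → ℝ)) : Prop :=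
  ∀ u : Fin k → ℝ, Tendsto (fun N : ℕ =>
    (((Finset.Icc 1 N).filter (fun n : ℕ => ∀ i, v n i ≤ u i)).card : ℝ) / N) atTop
    (𝓝 (μ.real {x | ∀ i, x i ≤ u i}))

open Classical in
/-- **Main result.** -/
theorem result (E : ℝ → ℝ)
    (hE : ∀ x : ℝ, E x =
      ((Nat.card {p : ℤ × ℤ // (p.1 : ℝ) ^ 2 + (p.2 : ℝ) ^ 2 ≤ x} : ℝ) - Real.pi * x) /
        x ^ (1 / 4 : ℝ)) :
    ∃ (ν : ProbabilityMeasure ℝ) (G : ℂ → ℂ)
      (μ : (k : ℕ) → (Fin k → ℕ) → (Fin k → ℕ) → ProbabilityMeasure (Fin k → ℝ)),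
      Differentiable ℂ G ∧ (∀ x : ℝ, 0 ≤ (G x).re ∧ (G x).im = 0) ∧
      (ν : Measure ℝ) = volume.withDensity (fun x : ℝ => ENNReal.ofReal (G x).re) ∧
      (∀ u v : ℝ, u < v → 0 < (ν : Measure ℝ) (Set.Ioo u v)) ∧
      (∀ (k : ℕ) (a b : Fin k → ℕ), (∀ i, 0 < a i) →
        (∀ i, (μ k a b : Measure (Fin k → ℝ)).map (fun x => x i) = (ν : Measure ℝ)) ∧
        HasLaw (fun n i => E ((a i : ℝ) * n + b i)) (μ k a b : Measure (Fin k → ℝ))) ∧
      ∀ c : ℝ, 1 < c → ∃ A : Set ℝ, dimH A < 1 ∧ ∀ α : ℝ, 0 < α → α ∉ A →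
        (∀ u : ℝ, Tendsto (fun N : ℕ =>
          (((Finset.Icc 1 N).filter (fun n : ℕ => E (α * (n : ℝ) ^ c) ≤ u)).card : ℝ) / N) atTop
          (𝓝 ((ν : Measure ℝ).real (Set.Iic u)))) ∧
        ∀ (k : ℕ) (a b : Fin k → ℕ), (∀ i, 0 < a i) →
          HasLaw (fun n i => E ((a i : ℝ) * ⌊α * (n : ℝ) ^ c⌋₊ + b i))
            (μ k a b : Measure (Fin k → ℝ)) := by
  classical
  have hEc : E = Pool.Agent.H425R3.JL.Ec := funext hE
  obtain ⟨ν, G, hG, hG0, hν, hpos, hlin⟩ := Pool.Agent.W24.CP.SR.circ_lin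
    (fun m : ℕ => Nat.card {p : ℤ × ℤ // p.1 ^ 2 + p.2 ^ 2 = (m : ℤ)}) (fun _ => rfl)
  rw [← hEc] at hlin
  -- the joint laws
  have hex : ∀ (k : ℕ) (a b : Fin k → ℕ), ∃ μ : ProbabilityMeasure (Fin k → ℝ), (∀ i, 0 < a i) →
      (∀ i, (μ : Measure (Fin k → ℝ)).map (fun x => x i) = (ν : Measure ℝ)) ∧
      ∀ u : Fin k → ℝ, ∀ η : ℝ, 0 < η → ∃ N0 : ℕ, ∀ N : ℕ, N0 ≤ N →
        |(((Finset.Icc 1 N).filter (fun n : ℕ =>
          (fun i => E ((a i : ℝ) * n + b i)) ∈ box u)).card : ℝ) -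
            (μ : Measure (Fin k → ℝ)).real (box u) * N| ≤ η * N := by
    intro k a b
    by_cases ha : ∀ i, 0 < a i
    · obtain ⟨μ, _, hmar, _, _, _, hD⟩ := hlin k a b ha
      refine ⟨μ, fun _ => ⟨hmar, fun u η hη => ?_⟩⟩
      obtain ⟨N0, hN0⟩ := hD (box u) (frontier_box u hν hmar) η hη
      refine ⟨N0, fun N hN => ?_⟩
      have h1 := (hN0 N hN 0).1 (fun _ => 1) (fun _ => by simp) (fun _ _ _ => by simp)
      have h2 : ∑ n ∈ Finset.Icc 1 N, (1 : ℂ) * Complex.exp (2 * Real.pi * Complex.I * (((0 : ℝ) : ℂ) * n)) *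
          (((if (fun i => E ((a i : ℝ) * n + b i)) ∈ box u then (1 : ℝ) else 0)
            - (μ : Measure (Fin k → ℝ)).real (box u) : ℝ) : ℂ) =
          (((((Finset.Icc 1 N).filter (fun n : ℕ =>
          (fun i => E ((a i : ℝ) * n + b i)) ∈ box u)).card : ℝ) -
            (μ : Measure (Fin k → ℝ)).real (box u) * N : ℝ) : ℂ) := by
        have h3 : ∀ n ∈ Finset.Icc 1 N, (1 : ℂ) * Complex.exp (2 * Real.pi * Complex.I * (((0 : ℝ) : ℂ) * n)) *
          (((if (fun i => E ((a i : ℝ) * n + b i)) ∈ box u then (1 : ℝ) else 0)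
            - (μ : Measure (Fin k → ℝ)).real (box u) : ℝ) : ℂ) =
          (((if (fun i => E ((a i : ℝ) * n + b i)) ∈ box u then (1 : ℝ) else 0)
            - (μ : Measure (Fin k → ℝ)).real (box u) : ℝ) : ℂ) := by
          intro n _
          simp
        rw [Finset.sum_congr rfl h3, ← Complex.ofReal_sum, Finset.sum_sub_distrib,
          Finset.sum_boole, Finset.sum_const, Nat.card_Icc, nsmul_eq_mul]
        simp only [Nat.add_sub_cancel]
        congr 2
        ring
      rw [h2, Complex.norm_real, Real.norm_eq_abs] at h1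
      exact h1
    · obtain ⟨μ, _⟩ := hlin 0 Fin.elim0 Fin.elim0 (fun i => i.elim0)
      exact ⟨⟨Measure.dirac (fun _ => 0), inferInstance⟩, fun h => absurd h ha⟩
  choose μ hμ using hex
  have hset : ∀ {k : ℕ} (u : Fin k → ℝ), {x : Fin k → ℝ | ∀ i, x i ≤ u i} = box u := fun u => rfl
  refine ⟨ν, G, μ, hG, hG0, hν, hpos, fun k a b ha => ⟨(hμ k a b ha).1, fun u => ?_⟩,
    fun c hc => ?_⟩
  · rw [hset, Metric.tendsto_atTop]
    intro ε hε
    obtain ⟨N0, hN0⟩ := (hμ k a b ha).2 u (ε / 2) (by positivity)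
    refine ⟨max N0 1, fun N hN => ?_⟩
    have h1 := hN0 N ((le_max_left _ _).trans hN)
    have hNp : (0 : ℝ) < N := by
      have : 1 ≤ N := (le_max_right _ _).trans hN
      exact_mod_cast this
    rw [Real.dist_eq]
    have h2 : (((Finset.Icc 1 N).filter (fun n : ℕ => ∀ i, E ((a i : ℝ) * n + b i) ≤ u i)).card : ℝ) / N -
        (μ k a b : Measure (Fin k → ℝ)).real (box u) =
        ((((Finset.Icc 1 N).filter (fun n : ℕ =>
          (fun i => E ((a i : ℝ) * n + b i)) ∈ box u)).card : ℝ) -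
            (μ k a b : Measure (Fin k → ℝ)).real (box u) * N) / N := by
      have h3 : (Finset.Icc 1 N).filter (fun n : ℕ => ∀ i, E ((a i : ℝ) * n + b i) ≤ u i) =
          (Finset.Icc 1 N).filter (fun n : ℕ => (fun i => E ((a i : ℝ) * n + b i)) ∈ box u) := by
        ext n
        simp only [Finset.mem_filter]
        exact Iff.rfl
      rw [h3, sub_div, mul_div_assoc, div_self hNp.ne', mul_one]
    rw [h2, abs_div, abs_of_pos hNp, div_lt_iff₀ hNp]
    nlinarith
  · -- along the sequences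
    obtain ⟨A, hA, hmain⟩ := joint c hc (ι := (Σ k : ℕ, (Fin k → ℕ) × (Fin k → ℕ))) (fun s => s.1)
      (fun s n i => E ((s.2.1 i : ℝ) * n + s.2.2 i))
    refine ⟨A, hA, fun α hα hαA => ?_⟩
    have hjoint : ∀ (k : ℕ) (a b : Fin k → ℕ), (∀ i, 0 < a i) →
          HasLaw (fun n i => E ((a i : ℝ) * ⌊α * (n : ℝ) ^ c⌋₊ + b i))
            (μ k a b : Measure (Fin k → ℝ)) := by
      intro k a b ha u
      refine (hmain α hα hαA ⟨k, (a, b)⟩ (ν : Measure ℝ) _ (μ k a b : Measure (Fin k → ℝ))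
        inferInstance inferInstance hν (hμ k a b ha).1 (hμ k a b ha).2 u).congr fun N => ?_
      congr 3
      ext n
      simp only [Finset.mem_filter]
      exact Iff.rfl
    refine ⟨fun u => ?_, hjoint⟩
    -- the law of `E (⌊α n ^ c⌋)`
    have hone : ∀ w : ℝ, Tendsto (fun N : ℕ =>
        (((Finset.Icc 1 N).filter (fun n : ℕ => E ((⌊α * (n : ℝ) ^ c⌋₊ : ℕ) : ℝ) ≤ w)).card : ℝ) / N)
        atTop (𝓝 ((ν : Measure ℝ).real (Set.Iic w))) := by
      intro w
      have h1 := hjoint 1 (fun _ => 1) (fun _ => 0) (fun _ => one_pos) (fun _ => w)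
      have h2 : (μ 1 (fun _ => 1) (fun _ => 0) : Measure (Fin 1 → ℝ)).real
          {x | ∀ i, x i ≤ w} = (ν : Measure ℝ).real (Set.Iic w) := by
        rw [← (hμ 1 (fun _ => 1) (fun _ => 0) (fun _ => one_pos)).1 0, Measure.real, Measure.real,
          Measure.map_apply (measurable_pi_apply 0) measurableSet_Iic]
        congr 2
        ext x
        simp only [Set.mem_ofPred_eq, Set.mem_preimage, Set.mem_Iic]
        exact ⟨fun h => h 0, fun h i => by rw [Subsingleton.elim i 0]; exact h⟩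
      rw [h2] at h1
      refine h1.congr fun N => ?_
      congr 2
      congr 1
      ext n
      simp
    rw [Metric.tendsto_atTop]
    intro ε hε
    obtain ⟨δ, hδ, hshort⟩ := short hν (ε := ε / 4) (by positivity)
    have hIic : ∀ s t : ℝ, s ≤ t → t - s < δ →
        (ν : Measure ℝ).real (Set.Iic t) ≤ (ν : Measure ℝ).real (Set.Iic s) + ε / 4 := by
      intro s t hst hts
      have h1 := hshort s t hts
      rw [← Set.Iic_union_Ioc_eq_Iic hst]
      exact (measureReal_union_le _ _).trans (by linarith)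
    obtain ⟨X0, hX0⟩ := cmp E hE u (δ / 2) (by positivity)
    have htend : Tendsto (fun n : ℕ => α * (n : ℝ) ^ c) atTop atTop :=
      Tendsto.const_mul_atTop hα ((tendsto_rpow_atTop (by linarith)).comp tendsto_natCast_atTop_atTop)
    obtain ⟨n0, hn0⟩ := eventually_atTop.1 (htend.eventually (eventually_ge_atTop X0))
    obtain ⟨N1, hN1⟩ := Metric.tendsto_atTop.1 (hone (u + δ / 2)) (ε / 4) (by positivity)
    obtain ⟨N2, hN2⟩ := Metric.tendsto_atTop.1 (hone (u - δ / 2)) (ε / 4) (by positivity)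
    obtain ⟨N3, hN3⟩ := exists_nat_gt (4 * (n0 : ℝ) / ε)
    refine ⟨max (max N1 N2) (max N3 1), fun N hN => ?_⟩
    have hN1' := hN1 N ((le_max_left _ _).trans ((le_max_left _ _).trans hN))
    have hN2' := hN2 N ((le_max_right _ _).trans ((le_max_left _ _).trans hN))
    have hN3' : N3 ≤ N := (le_max_left _ _).trans ((le_max_right _ _).trans hN)
    have hNp : (0 : ℝ) < N := by
      have : 1 ≤ N := (le_max_right _ _).trans ((le_max_right _ _).trans hN)
      exact_mod_cast this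
    have hn0N : (n0 : ℝ) / N ≤ ε / 4 := by
      rw [div_le_iff₀ hNp]
      have h1 : (N3 : ℝ) ≤ N := by exact_mod_cast hN3'
      have h2 : 4 * (n0 : ℝ) / ε < N := by linarith
      rw [div_lt_iff₀ hε] at h2
      linarith
    -- comparison of the counts
    have hcount : ∀ B B' : ℕ → Prop, (∀ n, n0 ≤ n → B n → B' n) →
        (((Finset.Icc 1 N).filter B).card : ℝ) ≤ (((Finset.Icc 1 N).filter B').card : ℝ) + n0 := by
      intro B B' hBB
      have h1 : (Finset.Icc 1 N).filter B ⊆ (Finset.Icc 1 N).filter B' ∪ Finset.range n0 := by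
        intro n hn
        rw [Finset.mem_filter] at hn
        rw [Finset.mem_union, Finset.mem_filter, Finset.mem_range]
        rcases lt_or_ge n n0 with h | h
        · exact Or.inr h
        · exact Or.inl ⟨hn.1, hBB n h hn.2⟩
      have h2 := (Finset.card_le_card h1).trans (Finset.card_union_le _ _)
      rw [Finset.card_range] at h2
      exact_mod_cast h2
    have hup := hcount (fun n => E (α * (n : ℝ) ^ c) ≤ u)
      (fun n => E ((⌊α * (n : ℝ) ^ c⌋₊ : ℕ) : ℝ) ≤ u + δ / 2)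
      (fun n hn h => (hX0 _ (hn0 n hn)).2 h)
    have hlo := hcount (fun n => E ((⌊α * (n : ℝ) ^ c⌋₊ : ℕ) : ℝ) ≤ u - δ / 2)
      (fun n => E (α * (n : ℝ) ^ c) ≤ u)
      (fun n hn h => (hX0 _ (hn0 n hn)).1 h)
    rw [Real.dist_eq, abs_lt] at hN1' hN2'
    have h5 : (((Finset.Icc 1 N).filter (fun n : ℕ => E (α * (n : ℝ) ^ c) ≤ u)).card : ℝ) / N ≤
        (((Finset.Icc 1 N).filter (fun n : ℕ =>
          E ((⌊α * (n : ℝ) ^ c⌋₊ : ℕ) : ℝ) ≤ u + δ / 2)).card : ℝ) / N + ε / 4 := by
      refine le_trans ?_ (add_le_add_right hn0N _)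
      rw [← add_div]
      exact div_le_div_of_nonneg_right hup hNp.le
    have h6 : (((Finset.Icc 1 N).filter (fun n : ℕ =>
          E ((⌊α * (n : ℝ) ^ c⌋₊ : ℕ) : ℝ) ≤ u - δ / 2)).card : ℝ) / N ≤
        (((Finset.Icc 1 N).filter (fun n : ℕ => E (α * (n : ℝ) ^ c) ≤ u)).card : ℝ) / N + ε / 4 := by
      refine le_trans ?_ (add_le_add_right hn0N _)
      rw [← add_div]
      exact div_le_div_of_nonneg_right hlo hNp.le
    have h7 := hIic u (u + δ / 2) (by linarith) (by linarith)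
    have h8 := hIic (u - δ / 2) u (by linarith) (by linarith)
    rw [Real.dist_eq, abs_lt]
    constructor <;> linarith [hN1'.1, hN1'.2, hN2'.1, hN2'.2]

end Pool.Agent.Results.MP_fb29e9_nt.RealPowerRadii
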