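import Pool.Agent.V11287.GC.Cons

/-!
# Sign patterns and order patterns of the error term of the Gauss circle problem

The signs of the error terms at `k` shifted radii (for instance at `k` consecutive integer radii)
form every one of the `2^k` patterns with a positive density, and their sizes are in every one of
the `k!` orders with a positive density; the densities are the same in short intervals, among the
primes, and independently of the multiplicative structure of the radius.
-/

set_option autoImplicit false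

open Filter Topology MeasureTheory

namespace Pool.Agent.Results.MP_fb29e9_nt.SignPatterns

open Pool.Agent.V11287.GC

/-- Let `count x` be the number `N(x)` of the integer points `p` with `|p|² ≤ x`, and let
`err x = (N(x) - π x) / x^{1/4}`. `HasDensity S d` says that the set `S` of positive integers has the
density `d` in a strong sense: in the intervals `[m, m + N)`, uniformly for `m^(1/2 + ε) ≤ N`; among
the primes; and `∑_{n ≤ N} w(n) (1_S(n) - d) = o(N)` uniformly for all multiplicative `w`, `|w| ≤ 1`,
and for all families of weights uncorrelated with irrational rotations.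

1. Let `a ≥ 1` be an integer, `b_1, …, b_k` distinct reals, `c_i` real, `P_i(n) = a n² + b_i n + c_i`
   positive for `n ≥ 1` (for instance `P_i(n) = (n + β_i)²` with distinct `β_i > -1`, the radii being
   `n + β_i`).
   * There is a law `μ` on `ℝ^k`, with a density that extends to an entire function and with full
     support, such that `{n : (err (P_1 n), …, err (P_k n)) ∈ A}` has the density `μ(A)` for all sets
     `A` whose frontier is Lebesgue null.
   * For every sign pattern `s`, the set of the `n` for which `N(P_i(n)) - π P_i(n)` has the sign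
     `s_i` for all `i` has a positive density `d_s`, and the sum of the `2^k` numbers `d_s` is `1`.
   * For every permutation `σ`, the set of the `n` with
     `err (P_{σ(1)}(n)) < err (P_{σ(2)}(n)) < … < err (P_{σ(k)}(n))` has a positive density, and the
     sum of these `k!` densities is `1`.
2. For every `k`, the set of the `n` such that all the `k` disks of the radii
   `n, n + 1, …, n + k - 1` contain fewer integer points than their area has a density `d > 0`, and
   `d ≥ 1 - k / 6`.
3. The set of the `n` such that the error terms have opposite signs for the disks of radius `n` and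
   `n + 1` has a density `d`, `0 < d ≤ 1 / 3`. -/
theorem result :
    (∀ (k a : ℕ) (b c : Fin k → ℝ), 0 < a → Function.Injective b →
      (∀ i, ∀ n : ℕ, 1 ≤ n → 0 < (a : ℝ) * (n : ℝ) ^ 2 + b i * n + c i) →
      (∃ (μ : ProbabilityMeasure (Fin k → ℝ)) (g : (Fin k → ℂ) → ℂ),
        Differentiable ℂ g ∧
        (∀ x : Fin k → ℝ, 0 ≤ (g (fun i => (x i : ℂ))).re ∧ (g (fun i => (x i : ℂ))).im = 0) ∧
        (μ : Measure (Fin k → ℝ)) =
          volume.withDensity (fun x : Fin k → ℝ => ENNReal.ofReal (g (fun i => (x i : ℂ))).re) ∧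
        (∀ A : Set (Fin k → ℝ), IsOpen A → A.Nonempty → 0 < (μ : Measure (Fin k → ℝ)) A) ∧
        ∀ A : Set (Fin k → ℝ), volume (frontier A) = 0 →
          HasDensity {n : ℕ | (fun i => err ((a : ℝ) * (n : ℝ) ^ 2 + b i * n + c i)) ∈ A}
            ((μ : Measure (Fin k → ℝ)).real A)) ∧
      (∃ d : (Fin k → Bool) → ℝ, (∀ s, 0 < d s) ∧ ∑ s, d s = 1 ∧ ∀ s, HasDensity {n : ℕ | ∀ i,
        if s i then
          Real.pi * ((a : ℝ) * n ^ 2 + b i * n + c i) < count ((a : ℝ) * n ^ 2 + b i * n + c i)
        else
          (count ((a : ℝ) * n ^ 2 + b i * n + c i) : ℝ)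
            < Real.pi * ((a : ℝ) * n ^ 2 + b i * n + c i)} (d s)) ∧
      (∃ d : Equiv.Perm (Fin k) → ℝ, (∀ σ, 0 < d σ) ∧ ∑ σ, d σ = 1 ∧ ∀ σ,
        HasDensity {n : ℕ |
          StrictMono fun i => err ((a : ℝ) * n ^ 2 + b (σ i) * n + c (σ i))} (d σ))) ∧
    (∀ k : ℕ, ∃ d : ℝ, 0 < d ∧ 1 - (k : ℝ) / 6 ≤ d ∧
      HasDensity {n : ℕ | ∀ j < k,
        (count (((n : ℝ) + j) ^ 2) : ℝ) < Real.pi * ((n : ℝ) + j) ^ 2} d) ∧
    (∃ d : ℝ, 0 < d ∧ d ≤ 1 / 3 ∧
      HasDensity {n : ℕ | ((count ((n : ℝ) ^ 2) : ℝ) - Real.pi * (n : ℝ) ^ 2)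
        * ((count (((n : ℝ) + 1) ^ 2) : ℝ) - Real.pi * ((n : ℝ) + 1) ^ 2) < 0} d) := by
  have hreal : ∀ {k : ℕ} (μ : ProbabilityMeasure (Fin k → ℝ)) (A : Set (Fin k → ℝ)),
      0 < (μ : Measure (Fin k → ℝ)) A → 0 < (μ : Measure (Fin k → ℝ)).real A := by
    intro k μ A h
    exact ENNReal.toReal_pos h.ne' (measure_ne_top _ _)
  refine ⟨fun k a b c ha hb hP => ?_, fun k => ?_, ?_⟩
  · obtain ⟨μ, g, hg, hg0, hgμ, hop, hset⟩ := law a ha b c hb hP
    have hac : (μ : Measure (Fin k → ℝ)) ≪ volume := by
      rw [hgμ]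
      exact withDensity_absolutelyContinuous _ _
    refine ⟨⟨μ, g, hg, hg0, hgμ, hop, hset⟩,
      ⟨fun s => (μ : Measure (Fin k → ℝ)).real (signSet s),
        fun s => hreal μ _ (hop _ (signSet_open s) (signSet_nonempty s)), sign_sum μ hac,
        fun s => ?_⟩,
      ⟨fun σ => (μ : Measure (Fin k → ℝ)).real (orderSet σ),
        fun σ => hreal μ _ (hop _ (orderSet_open σ) (orderSet_nonempty σ)), order_sum μ hac,
        fun σ => ?_⟩⟩
    · refine (hset _ (signSet_frontier s)).congr fun n hn => ?_
      have key : ∀ i, ((if s i then 0 < err ((a : ℝ) * (n : ℝ) ^ 2 + b i * n + c i)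
          else err ((a : ℝ) * (n : ℝ) ^ 2 + b i * n + c i) < 0) ↔
          if s i then
            Real.pi * ((a : ℝ) * n ^ 2 + b i * n + c i) < count ((a : ℝ) * n ^ 2 + b i * n + c i)
          else
            (count ((a : ℝ) * n ^ 2 + b i * n + c i) : ℝ)
              < Real.pi * ((a : ℝ) * n ^ 2 + b i * n + c i)) := by
        intro i
        by_cases hs : s i = true
        · rw [if_pos hs, if_pos hs]
          exact err_pos_iff (hP i n hn)
        · rw [if_neg hs, if_neg hs]
          exact err_neg_iff (hP i n hn)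
      exact forall_congr' key
    · refine (hset _ (orderSet_frontier σ)).congr fun n hn => ?_
      exact Iff.rfl
  · obtain ⟨μ, hac, hop, h16, hset⟩ := cons_law k
    refine ⟨(μ : Measure (Fin k → ℝ)).real (signSet fun _ => false),
      hreal μ _ (hop _ (signSet_open _) (signSet_nonempty _)), ?_, ?_⟩
    · have hm : MeasurableSet (signSet (fun _ : Fin k => false)) := (signSet_open _).measurableSet
      have h1 : (μ : Measure (Fin k → ℝ)).real (signSet fun _ => false)ᶜ
          ≤ ∑ i : Fin k, (μ : Measure (Fin k → ℝ)).real {x | ¬ x i < 0} := by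
        refine le_trans (measureReal_mono ?_ (by finiteness)) (measureReal_iUnion_fintype_le _)
        intro x hx
        by_contra h2
        simp only [Set.mem_iUnion, Set.mem_setOf_eq, not_exists, not_not] at h2
        exact hx fun i => by simpa using h2 i
      have h2 : ∑ i : Fin k, (μ : Measure (Fin k → ℝ)).real {x | ¬ x i < 0} ≤ k * (1 / 6) := by
        refine (Finset.sum_le_sum fun i _ => h16 i).trans ?_
        simp
      rw [probReal_compl_eq_one_sub hm] at h1
      linarith
    · refine (hset _ (signSet_frontier _)).congr fun n hn => ?_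
      have hn0 : (0 : ℝ) < n := by exact_mod_cast hn
      constructor
      · intro h j hj
        have h1 : err (((n : ℝ) + j) ^ 2) < 0 := by simpa using h ⟨j, hj⟩
        exact (err_neg_iff (by positivity)).1 h1
      · intro h i
        have h1 := (err_neg_iff (x := ((n : ℝ) + (i : ℕ)) ^ 2) (by positivity)).2 (h i i.2)
        simpa using h1
  · obtain ⟨μ, hac, hop, h16, hset⟩ := cons_law 2
    set A : Set (Fin 2 → ℝ) := {x | x 0 * x 1 < 0} with hA
    have hAo : IsOpen A := isOpen_lt (by fun_prop) continuous_const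
    have hAn : A.Nonempty := ⟨![1, -1], by simp [hA]⟩
    have hAf : volume (frontier A) = 0 := by
      refine measure_mono_null (frontier_lt_subset_eq (by fun_prop) continuous_const) ?_
      refine measure_mono_null ?_ (coords_null 2)
      intro x hx
      have hx' : x 0 * x 1 = 0 := hx
      rcases mul_eq_zero.1 hx' with h | h
      · exact ⟨0, h⟩
      · exact ⟨1, h⟩
    refine ⟨(μ : Measure (Fin 2 → ℝ)).real A, hreal μ _ (hop _ hAo hAn), ?_, ?_⟩
    · have h1 : (μ : Measure (Fin 2 → ℝ)).real A
          ≤ (μ : Measure (Fin 2 → ℝ)).real {x | ¬ x 0 < 0}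
            + (μ : Measure (Fin 2 → ℝ)).real {x | ¬ x 1 < 0} := by
        refine le_trans (measureReal_mono ?_ (by finiteness)) (measureReal_union_le _ _)
        intro x hx
        by_contra h2
        simp only [Set.mem_union, Set.mem_setOf_eq, not_or, not_not] at h2
        have hx' : x 0 * x 1 < 0 := hx
        have := mul_pos_of_neg_of_neg h2.1 h2.2
        linarith
      have h2 := h16 0
      have h3 := h16 1
      linarith
    · refine (hset _ hAf).congr fun n hn => ?_
      have hn0 : (0 : ℝ) < n := by exact_mod_cast hn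
      have e0 : ((n : ℝ) + ((0 : Fin 2) : ℕ)) ^ 2 = (n : ℝ) ^ 2 := by simp
      have e1 : ((n : ℝ) + ((1 : Fin 2) : ℕ)) ^ 2 = ((n : ℝ) + 1) ^ 2 := by simp
      have h1 : ((fun i : Fin 2 => err (((n : ℝ) + (i : ℕ)) ^ 2)) ∈ A)
          ↔ err ((n : ℝ) ^ 2) * err (((n : ℝ) + 1) ^ 2) < 0 := by
        rw [← e0, ← e1]
        rfl
      have h2 : err ((n : ℝ) ^ 2) * err (((n : ℝ) + 1) ^ 2)
          = ((count ((n : ℝ) ^ 2) : ℝ) - Real.pi * (n : ℝ) ^ 2)
            * ((count (((n : ℝ) + 1) ^ 2) : ℝ) - Real.pi * ((n : ℝ) + 1) ^ 2)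
            / (((n : ℝ) ^ 2) ^ (1 / 4 : ℝ) * (((n : ℝ) + 1) ^ 2) ^ (1 / 4 : ℝ)) := by
        unfold err
        rw [div_mul_div_comm]
      have h3 : 0 < ((n : ℝ) ^ 2) ^ (1 / 4 : ℝ) * (((n : ℝ) + 1) ^ 2) ^ (1 / 4 : ℝ) := by
        positivity
      change (fun i : Fin 2 => err (((n : ℝ) + (i : ℕ)) ^ 2)) ∈ A ↔ _
      rw [h1, h2, div_lt_iff₀ h3, zero_mul]
      rfl

end Pool.Agent.Results.MP_fb29e9_nt.SignPatterns
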