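import Pool.Agent.Y969.QM3
import Pool.Agent.Y969.QM4
import Pool.Agent.V11326.WR

/-!
# The Gauss circle problem: all radii in windows around thin sequences

Let `F(R)` be the number of lattice points in the closed disk of radius `R`. Let `v ≥ 1` be a sequence with exponent of
convergence at most `τ` (for `v_n = b ^ n` it is `0`, for `v_n = n ^ a` it is `1 / a`) and `0 ≤ θ < 1`. For every small
`ε > 0` and all `α > 0` outside a set of Hausdorff dimension at most `(1 - c ε log (1 / ε) + τ) / (1 - θ)`, the conjectured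
bound `|F(R) - π R ^ 2| ≤ R ^ (1 / 2 + ε)` holds for all but finitely many `n` and ALL real radii `R` with
`|R ^ 2 - α v_n| ≤ v_n ^ θ`. The same for windows of integers `m` and the radii `R = √(a m ^ 2 + b m + c)`, `a > 0`
rational, `b`, `c` real, for instance for the radii `R = m + β`.
-/

set_option autoImplicit false

namespace Pool.Agent.Results.MP_fb29e9_nt.WindowsOfAllRadii

open Real

/-- the exponent of convergence of the sequence `v` is at most `τ` -/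
def ExpLe (v : ℕ → ℝ) (τ : ℝ) : Prop := ∀ t : ℝ, τ < t → Summable (fun n : ℕ => (v n) ^ (-t))

/-- the number of lattice points in the closed disk of radius `R` about the origin -/
noncomputable def F (R : ℝ) : ℝ := (Nat.card {p : ℤ × ℤ // (p.1 : ℝ) ^ 2 + (p.2 : ℝ) ^ 2 ≤ R ^ 2} : ℝ)

/-- the exponent of the exceptional set -/
noncomputable def sExp (c ε : ℝ) : ℝ := 1 - c * (ε * Real.log (1 / ε))

lemma eps_log_nonneg {ε : ℝ} (h0 : 0 < ε) (h1 : ε ≤ 1) : 0 ≤ ε * Real.log (1 / ε) :=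
  mul_nonneg h0.le (Real.log_nonneg (by rw [le_div_iff₀ h0]; linarith))

lemma eps_log_le {ε : ℝ} (h0 : 0 < ε) : ε * Real.log (1 / ε) ≤ 1 := by
  have h1 := Real.log_le_sub_one_of_pos (show 0 < 1 / ε by positivity)
  calc ε * Real.log (1 / ε) ≤ ε * (1 / ε - 1) := mul_le_mul_of_nonneg_left h1 h0.le
    _ = 1 - ε := by field_simp
    _ ≤ 1 := by linarith

lemma s_nonneg {c ε : ℝ} (hc0 : 0 ≤ c) (hc : c ≤ 1) (h0 : 0 < ε) : 0 ≤ sExp c ε := by
  have h1 := eps_log_le h0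
  unfold sExp
  nlinarith

/-- comparison of the exponents for `ε` and `ε / 2` -/
lemma s_le {c ε : ℝ} (hc : 0 < c) (h0 : 0 < ε) (h1 : ε ≤ 1) :
    1 - c * (ε / 2 * Real.log (1 / (ε / 2))) ≤ sExp (min c 1 / 2) ε := by
  have hl1 : 0 ≤ Real.log (1 / ε) := Real.log_nonneg (by rw [le_div_iff₀ h0]; linarith)
  have hl2 : Real.log (1 / ε) ≤ Real.log (1 / (ε / 2)) := by
    apply Real.log_le_log (by positivity)
    rw [div_le_div_iff₀ h0 (by positivity)]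
    linarith
  have hm : min c 1 ≤ c := min_le_left _ _
  have h3 : min c 1 / 2 * (ε * Real.log (1 / ε)) ≤ c * (ε / 2 * Real.log (1 / (ε / 2))) := by
    calc min c 1 / 2 * (ε * Real.log (1 / ε)) = min c 1 * (ε / 2 * Real.log (1 / ε)) := by ring
      _ ≤ c * (ε / 2 * Real.log (1 / ε)) := mul_le_mul_of_nonneg_right hm (by positivity)
      _ ≤ c * (ε / 2 * Real.log (1 / (ε / 2))) := by
          apply mul_le_mul_of_nonneg_left _ hc.le
          exact mul_le_mul_of_nonneg_left hl2 (by linarith)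
  unfold sExp
  linarith

lemma pow_bound {C s' s X ε : ℝ} {H : ℕ} (hC : 0 < C) (hs : s' ≤ s) (hs0 : 0 ≤ s) (hε : 0 < ε) (hH : 1 ≤ H)
    (hHX : (H : ℝ) ≤ X) : C * (H : ℝ) ^ s' ≤ C * X ^ (s + ε) := by
  have hH1 : (1 : ℝ) ≤ H := by exact_mod_cast hH
  apply mul_le_mul_of_nonneg_left _ hC.le
  calc (H : ℝ) ^ s' ≤ (H : ℝ) ^ (s + ε) := Real.rpow_le_rpow_of_exponent_le hH1 (by linarith)
    _ ≤ X ^ (s + ε) := Real.rpow_le_rpow (by linarith) hHX (by linarith)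

/-- from the normalised error term to the bound of the conjecture -/
lemma conclude {R ε : ℝ} (hR : 0 < R) (h : ¬ ((R ^ 2) ^ (ε / 2) < |Pool.Agent.H425R3.JL.Ec (R ^ 2)|)) :
    |F R - π * R ^ 2| ≤ R ^ (1 / 2 + ε) := by
  have h1 := not_lt.1 h
  have hR2 : 0 < R ^ 2 := by positivity
  have hq : 0 < (R ^ 2) ^ (1 / 4 : ℝ) := Real.rpow_pos_of_pos hR2 _
  have h2 : Pool.Agent.H425R3.JL.Ec (R ^ 2) = (F R - π * R ^ 2) / (R ^ 2) ^ (1 / 4 : ℝ) := rfl
  rw [h2, abs_div, abs_of_pos hq, div_le_iff₀ hq, ← Real.rpow_add hR2] at h1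
  refine h1.trans (le_of_eq ?_)
  rw [← Real.rpow_natCast R 2, ← Real.rpow_mul hR.le]
  congr 1
  push_cast
  ring

/-- **Theorem.** (1) There is `c > 0` such that for all `0 < ε ≤ c`, all sequences `v ≥ 1` of exponent of convergence at
most `τ ≥ 0` and all `0 ≤ θ < 1` there is a set `E` of Hausdorff dimension at most
`(1 - c ε log (1 / ε) + τ) / (1 - θ)` such that for each `α > 0` outside `E` and all but finitely many `n`, ALL real radii
`R ≥ 1` with `|R ^ 2 - α v_n| ≤ v_n ^ θ` satisfy `|F(R) - π R ^ 2| ≤ R ^ (1 / 2 + ε)`.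

(2) Let `a > 0` be rational and `b`, `c` real with `a m ^ 2 + b m + c > 0` for all integers `m ≥ 0`. There is `κ > 0` such
that for all `0 < ε ≤ κ`, all sequences `v ≥ 1` of exponent of convergence at most `τ ≥ 0` and all `θ < 1` there is a set
`E` of Hausdorff dimension at most `(1 - κ ε log (1 / ε) + τ) / (1 - θ)` such that for each `α > 0` outside `E`, all but
finitely many `n` and all integers `m ≥ 0` with `|m - α v_n| ≤ v_n ^ θ`, the radius `R = √(a m ^ 2 + b m + c)` satisfies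
`|F(R) - π R ^ 2| ≤ R ^ (1 / 2 + ε)`.

(3) The sequences `v_n = (n + 1) ^ a` and `v_n = b ^ n` have exponent of convergence at most `1 / a` and `0`. -/
theorem result :
    (∃ c : ℝ, 0 < c ∧ ∀ ε : ℝ, 0 < ε → ε ≤ c → ∀ (v : ℕ → ℝ) (τ θ : ℝ), (∀ n, 1 ≤ v n) → 0 ≤ τ → ExpLe v τ →
      0 ≤ θ → θ < 1 → ∃ E : Set ℝ, dimH E ≤ ENNReal.ofReal ((sExp c ε + τ) / (1 - θ)) ∧
        ∀ α : ℝ, 0 < α → α ∉ E → ∃ n₀ : ℕ, ∀ n : ℕ, n₀ ≤ n → ∀ R : ℝ, 1 ≤ R →
          |R ^ 2 - α * v n| ≤ (v n) ^ θ → |F R - π * R ^ 2| ≤ R ^ (1 / 2 + ε)) ∧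
    (∀ (a : ℚ) (b c : ℝ), 0 < a → (∀ m : ℕ, 0 < (a : ℝ) * (m : ℝ) ^ 2 + b * m + c) →
      ∃ κ : ℝ, 0 < κ ∧ ∀ ε : ℝ, 0 < ε → ε ≤ κ → ∀ (v : ℕ → ℝ) (τ θ : ℝ), (∀ n, 1 ≤ v n) → 0 ≤ τ → ExpLe v τ →
      θ < 1 → ∃ E : Set ℝ, dimH E ≤ ENNReal.ofReal ((sExp κ ε + τ) / (1 - θ)) ∧
        ∀ α : ℝ, 0 < α → α ∉ E → ∃ n₀ : ℕ, ∀ n : ℕ, n₀ ≤ n → ∀ m : ℕ, |(m : ℝ) - α * v n| ≤ (v n) ^ θ →
          ∀ R : ℝ, 0 < R → R ^ 2 = (a : ℝ) * (m : ℝ) ^ 2 + b * m + c → |F R - π * R ^ 2| ≤ R ^ (1 / 2 + ε)) ∧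
    (∀ a : ℝ, 0 < a → ExpLe (fun n : ℕ => ((n : ℝ) + 1) ^ a) (1 / a)) ∧
    (∀ b : ℝ, 1 < b → ExpLe (fun n : ℕ => b ^ n) 0) := by
  classical
  refine ⟨?_, ?_, fun κ hκ => Pool.Agent.Y854.GM.expLe_pow κ hκ, fun b hb => Pool.Agent.Y854.GM.expLe_geom b hb⟩
  · obtain ⟨c, hc, h⟩ := Pool.Agent.Y969.SW.exc_circle' (1 / 2) (by norm_num)
    have hm0 : 0 < min c 1 := lt_min hc one_pos
    refine ⟨min c 1 / 2, by positivity, fun ε hε hεc v τ θ hv hτ hE hθ0 hθ1 => ?_⟩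
    have hε1 : ε ≤ 1 := hεc.trans (by linarith [min_le_right c 1])
    have hεc' : ε / 2 ≤ c := by linarith [min_le_left c 1]
    obtain ⟨C, hC, hcount⟩ := h (ε / 2) (by positivity) hεc'
    have hs0 : 0 ≤ sExp (min c 1 / 2) ε := s_nonneg (by positivity) (by linarith [min_le_right c 1]) hε
    obtain ⟨E, hE1, hE2⟩ := Pool.Agent.V11326.WR.windowsR
      {n : ℕ | 1 ≤ n ∧ ∃ y : ℝ, (n : ℝ) ≤ y ∧ y < n + 1 ∧ y ^ (ε / 2) < |Pool.Agent.H425R3.JL.Ec y|}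
      (s := sExp (min c 1 / 2) ε) hv hτ hE hs0 hθ0 hθ1 (by
        intro ε' hε'
        refine ⟨C, fun X hX => ?_⟩
        have hX0 : 0 ≤ X := by linarith
        have hN1 : 1 ≤ ⌊X⌋₊ := Nat.le_floor (by exact_mod_cast hX)
        have hNX : (⌊X⌋₊ : ℝ) ≤ X := Nat.floor_le hX0
        have h1 := hcount 1 ⌊X⌋₊ le_rfl (by
          rw [Nat.cast_one, Real.one_rpow]
          exact_mod_cast hN1)
        refine le_trans ?_ (h1.trans (pow_bound hC (s_le hc hε hε1) hs0 hε' hN1 hNX))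
        have hsub : {t : ℕ | t ∈ {n : ℕ | 1 ≤ n ∧ ∃ y : ℝ, (n : ℝ) ≤ y ∧ y < n + 1 ∧
            y ^ (ε / 2) < |Pool.Agent.H425R3.JL.Ec y|} ∧ (t : ℝ) ≤ X} ⊆
            (((Finset.Ico 1 (1 + ⌊X⌋₊)).filter (fun n : ℕ => ∃ y : ℝ, (n : ℝ) ≤ y ∧ y < n + 1 ∧
              y ^ (ε / 2) < |Pool.Agent.H425R3.JL.Ec y|) : Finset ℕ) : Set ℕ) := by
          rintro t ⟨⟨ht1, ht2⟩, ht3⟩
          have h5 : t ≤ ⌊X⌋₊ := Nat.le_floor ht3
          rw [Finset.mem_coe, Finset.mem_filter, Finset.mem_Ico]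
          exact ⟨⟨ht1, by omega⟩, ht2⟩
        have h6 := Set.ncard_le_ncard hsub (Finset.finite_toSet _)
        rw [Set.ncard_coe_finset] at h6
        exact_mod_cast h6)
    refine ⟨E, hE1, fun α hα hαE => ?_⟩
    obtain ⟨n₀, hn⟩ := hE2 α hα hαE
    refine ⟨n₀, fun n hn1 R hR hw => conclude (by linarith) fun hcon => ?_⟩
    have hR2 : (1 : ℝ) ≤ R ^ 2 := one_le_pow₀ hR
    refine hn n hn1 (R ^ 2) (by positivity) hw ⟨Nat.le_floor (by exact_mod_cast hR2), R ^ 2, ?_, ?_, hcon⟩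
    · exact Nat.floor_le (by positivity)
    · exact Nat.lt_floor_add_one _
  · intro a b c ha hP
    obtain ⟨μ, g, -, -, -, -, -, h⟩ := Pool.Agent.Y969.QM.circ_quad 1 a ha (fun _ => b) (fun _ => c)
      (fun i j _ => Subsingleton.elim i j) (fun _ m => hP m)
    obtain ⟨κ, hκ, h⟩ := h (1 / 2) (by norm_num)
    have hm0 : 0 < min κ 1 := lt_min hκ one_pos
    refine ⟨min κ 1 / 2, by positivity, fun ε hε hεc v τ θ hv hτ hE hθ1 => ?_⟩
    have hε1 : ε ≤ 1 := hεc.trans (by linarith [min_le_right κ 1])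
    have hεc' : ε / 2 ≤ κ := by linarith [min_le_left κ 1]
    obtain ⟨C, hC, hcount⟩ := h (ε / 2) (by positivity) hεc'
    have hs0 : 0 ≤ sExp (min κ 1 / 2) ε := s_nonneg (by positivity) (by linarith [min_le_right κ 1]) hε
    obtain ⟨E, hE1, hE2⟩ := Pool.Agent.V11326.WR.windowsN
      {m : ℕ | ((a : ℝ) * (m : ℝ) ^ 2 + b * m + c) ^ (ε / 2) <
        |Pool.Agent.H425R3.JL.Ec ((a : ℝ) * (m : ℝ) ^ 2 + b * m + c)|}
      (s := sExp (min κ 1 / 2) ε) hv hτ hE hs0 hθ1 (by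
        intro ε' hε'
        refine ⟨C * 2 ^ (sExp (min κ 1 / 2) ε + ε'), fun X hX => ?_⟩
        have hX0 : 0 ≤ X := by linarith
        have hNX : ((⌊X⌋₊ + 1 : ℕ) : ℝ) ≤ 2 * X := by
          push_cast
          linarith [Nat.floor_le hX0]
        have h1 := hcount (⌊X⌋₊ + 1) 0 (by omega) (by
          rw [Nat.cast_zero, Real.zero_rpow (by norm_num)]
          positivity)
        have h2 := h1.trans (pow_bound hC (s_le hκ hε hε1) hs0 hε' (show 1 ≤ ⌊X⌋₊ + 1 by omega) hNX)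
        rw [Real.mul_rpow (by norm_num) hX0, ← mul_assoc] at h2
        refine le_trans ?_ h2
        have hsub : {t : ℕ | t ∈ {m : ℕ | ((a : ℝ) * (m : ℝ) ^ 2 + b * m + c) ^ (ε / 2) <
            |Pool.Agent.H425R3.JL.Ec ((a : ℝ) * (m : ℝ) ^ 2 + b * m + c)|} ∧ (t : ℝ) ≤ X} ⊆
            (((Finset.Ico 0 (0 + (⌊X⌋₊ + 1))).filter (fun n : ℕ => ∃ i : Fin 1,
              ((a : ℝ) * (n : ℝ) ^ 2 + (fun _ => b) i * n + (fun _ => c) i) ^ (ε / 2) <
              |Pool.Agent.H425R3.JL.Ec ((a : ℝ) * (n : ℝ) ^ 2 + (fun _ => b) i * n + (fun _ => c) i)|) :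
                Finset ℕ) : Set ℕ) := by
          rintro t ⟨ht2, ht3⟩
          have h5 : t ≤ ⌊X⌋₊ := Nat.le_floor ht3
          rw [Finset.mem_coe, Finset.mem_filter, Finset.mem_Ico]
          exact ⟨⟨Nat.zero_le _, by omega⟩, 0, ht2⟩
        have h6 := Set.ncard_le_ncard hsub (Finset.finite_toSet _)
        rw [Set.ncard_coe_finset] at h6
        exact_mod_cast h6)
    refine ⟨E, hE1, fun α hα hαE => ?_⟩
    obtain ⟨n₀, hn⟩ := hE2 α hα hαE
    refine ⟨n₀, fun n hn1 m hm R hR hRm => conclude hR fun hcon => hn n hn1 m hm ?_⟩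
    rw [hRm] at hcon
    exact hcon

end Pool.Agent.Results.MP_fb29e9_nt.WindowsOfAllRadii
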